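import Mathlib

set_option autoImplicit false

namespace Pool.Agent.Work.MP_2bf34e_al

open ExteriorAlgebra

variable {K V V' : Type*} [Field K] [AddCommGroup V] [Module K V] [AddCommGroup V'] [Module K V']

lemma ι_mem (v : V) : ι K v ∈ ⋀[K]^1 V := by
  rw [exteriorPower, pow_one]; exact LinearMap.mem_range_self _ _

lemma mul_mem_add {i j : ℕ} {a b : ExteriorAlgebra K V} (ha : a ∈ ⋀[K]^i V) (hb : b ∈ ⋀[K]^j V) :
    a * b ∈ ⋀[K]^(i + j) V := by
  rw [exteriorPower, pow_add]; exact Submodule.mul_mem_mul ha hb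

lemma pow_mem_mul {i : ℕ} {a : ExteriorAlgebra K V} (ha : a ∈ ⋀[K]^i V) (n : ℕ) :
    a ^ n ∈ ⋀[K]^(n * i) V := by
  rw [exteriorPower, mul_comm, pow_mul]; exact Submodule.pow_mem_pow _ ha n

lemma one_mem_zero : (1 : ExteriorAlgebra K V) ∈ ⋀[K]^0 V := by
  rw [exteriorPower, pow_zero]; exact Submodule.one_le.mp le_rfl

lemma ι_mul_comm (v : V) {j : ℕ} {b : ExteriorAlgebra K V} (hb : b ∈ ⋀[K]^j V) :
    ι K v * b = (-1 : K) ^ j • (b * ι K v) := by
  induction hb using Submodule.pow_induction_on_left' with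
  | algebraMap r => simp [Algebra.commutes]
  | add x y i hx hy ihx ihy => rw [mul_add, ihx, ihy, add_mul, smul_add]
  | mem_mul m hm i x hx ih =>
    obtain ⟨w, rfl⟩ := hm
    have h1 : ι K v * ι K w = - (ι K w * ι K v) := by
      have := ι_add_mul_swap (R := K) v w
      exact eq_neg_of_add_eq_zero_left this
    rw [← mul_assoc, h1, neg_mul, mul_assoc, ih, mul_smul_comm, pow_succ, ← mul_assoc, mul_smul,
      neg_one_smul, smul_neg]

lemma gr_comm {i j : ℕ} {a b : ExteriorAlgebra K V} (ha : a ∈ ⋀[K]^i V) (hb : b ∈ ⋀[K]^j V) :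
    a * b = (-1 : K) ^ (i * j) • (b * a) := by
  induction ha using Submodule.pow_induction_on_left' with
  | algebraMap r => simp [Algebra.commutes]
  | add x y i hx hy ihx ihy => rw [add_mul, ihx, ihy, mul_add, smul_add]
  | mem_mul m hm i x hx ih =>
    obtain ⟨w, rfl⟩ := hm
    rw [mul_assoc, ih, mul_smul_comm, ← mul_assoc, ι_mul_comm w hb, smul_mul_assoc, smul_smul,
      ← pow_add, mul_assoc, Nat.succ_eq_add_one, add_mul, one_mul]

lemma sign_cases (n : ℕ) : ((-1 : K) ^ n = 1) ∨ ((-1 : K) ^ n = -1) := neg_one_pow_eq_or K n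

lemma even_comm {i j : ℕ} {a b : ExteriorAlgebra K V} (ha : a ∈ ⋀[K]^i V) (hb : b ∈ ⋀[K]^j V)
    (hi : Even (i * j)) : a * b = b * a := by
  rw [gr_comm ha hb, hi.neg_one_pow, one_smul]

lemma odd_comm {i j : ℕ} {a b : ExteriorAlgebra K V} (ha : a ∈ ⋀[K]^i V) (hb : b ∈ ⋀[K]^j V)
    (hi : Odd (i * j)) : a * b = - (b * a) := by
  rw [gr_comm ha hb, hi.neg_one_pow, neg_one_smul]

/-- elements of even degree are central -/
lemma even_central {i : ℕ} {a : ExteriorAlgebra K V} (ha : a ∈ ⋀[K]^i V) (hi : Even i)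
    (b : ExteriorAlgebra K V) : a * b = b * a := by
  induction b using DirectSum.Decomposition.inductionOn (fun i => ⋀[K]^i V) with
  | zero => simp
  | add x y hx hy => rw [mul_add, hx, hy, add_mul]
  | homogeneous x => exact even_comm ha x.2 (hi.mul_right _)

/-- moving a homogeneous element past anything: range statement -/
lemma exists_mul_comm {i : ℕ} {a : ExteriorAlgebra K V} (ha : a ∈ ⋀[K]^i V)
    (b : ExteriorAlgebra K V) : ∃ b', b * a = a * b' := by
  induction b using DirectSum.Decomposition.inductionOn (fun i => ⋀[K]^i V) with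
  | zero => exact ⟨0, by simp⟩
  | add x y hx hy =>
    obtain ⟨x', hx'⟩ := hx
    obtain ⟨y', hy'⟩ := hy
    exact ⟨x' + y', by rw [add_mul, hx', hy', mul_add]⟩
  | homogeneous x =>
    exact ⟨(-1 : K) ^ _ • x, by rw [gr_comm x.2 ha, mul_smul_comm]⟩

lemma kill {i : ℕ} {a b : ExteriorAlgebra K V} (ha : a ∈ ⋀[K]^i V) (hab : a * b = 0)
    (z : ExteriorAlgebra K V) : a * (z * b) = 0 := by
  induction z using DirectSum.Decomposition.inductionOn (fun i => ⋀[K]^i V) with
  | zero => simp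
  | add x y hx hy => rw [add_mul, mul_add, hx, hy, add_zero]
  | homogeneous x =>
    rw [← mul_assoc, gr_comm ha x.2, smul_mul_assoc, mul_assoc, hab, mul_zero, smul_zero]

lemma ιMulti_mem (d : ℕ) (v : Fin d → V) : ιMulti K d v ∈ ⋀[K]^d V :=
  ιMulti_range K d ⟨v, rfl⟩

lemma ιMulti_sq {d : ℕ} (hd : 1 ≤ d) (v : Fin d → V) : ιMulti K d v * ιMulti K d v = 0 := by
  rw [ιMulti_mul_ιMulti]
  apply AlternatingMap.map_eq_zero_of_eq (i := Fin.castAdd d ⟨0, hd⟩) (j := Fin.natAdd d ⟨0, hd⟩)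
  · rw [Fin.append_left, Fin.append_right]
  · intro h
    have := congrArg Fin.val h
    simp at this
    omega

lemma sq_zero_of_odd {d : ℕ} (hd : Odd d) {f : ExteriorAlgebra K V} (hf : f ∈ ⋀[K]^d V) :
    f * f = 0 := by
  rw [← ιMulti_span_fixedDegree] at hf
  induction hf using Submodule.span_induction with
  | mem x hx =>
    obtain ⟨v, rfl⟩ := hx
    exact ιMulti_sq hd.pos v
  | zero => simp
  | add x y hx hy ihx ihy =>
    rw [ιMulti_span_fixedDegree] at hx hy
    have := odd_comm hx hy (hd.mul hd)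
    rw [add_mul, mul_add, mul_add, ihx, ihy, this]
    simp
  | smul c x hx ih => rw [smul_mul_smul_comm, ih, smul_zero]

lemma pow_char_zero {d : ℕ} (hd : 1 ≤ d) (hev : Even d) (p : ℕ) [CharP K p] (hp : p ≠ 0)
    {f : ExteriorAlgebra K V} (hf : f ∈ ⋀[K]^d V) : f ^ p = 0 := by
  have hp' : Fact p.Prime := ⟨(CharP.char_is_prime_or_zero K p).resolve_right hp⟩
  have : CharP (ExteriorAlgebra K V) p :=
    charP_of_injective_algebraMap (algebraMap K (ExteriorAlgebra K V)).injective p
  rw [← ιMulti_span_fixedDegree] at hf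
  induction hf using Submodule.span_induction with
  | mem x hx =>
    obtain ⟨v, rfl⟩ := hx
    have h2 : 2 ≤ p := hp'.out.two_le
    obtain ⟨q, rfl⟩ := Nat.exists_eq_add_of_le h2
    rw [pow_add, pow_two, ιMulti_sq hd v, zero_mul]
  | zero => exact zero_pow hp
  | add x y hx hy ihx ihy =>
    rw [ιMulti_span_fixedDegree] at hx hy
    have hc : Commute x y := even_comm hx hy (hev.mul_right _)
    rw [add_pow_char_of_commute _ hc, ihx, ihy, add_zero]
  | smul c x hx ih => rw [smul_pow, ih, smul_zero]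

lemma map_mem (j : V →ₗ[K] V') {i : ℕ} {a : ExteriorAlgebra K V} (ha : a ∈ ⋀[K]^i V) :
    ExteriorAlgebra.map j a ∈ ⋀[K]^i V' := by
  induction ha using Submodule.pow_induction_on_left' with
  | algebraMap r =>
    rw [AlgHom.commutes, exteriorPower, pow_zero]
    exact Submodule.algebraMap_mem r
  | add x y i hx hy ihx ihy => rw [map_add]; exact Submodule.add_mem _ ihx ihy
  | mem_mul m hm i x hx ih =>
    obtain ⟨w, rfl⟩ := hm
    rw [map_mul, map_apply_ι, exteriorPower, Nat.succ_eq_add_one, pow_succ']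
    exact Submodule.mul_mem_mul (LinearMap.mem_range_self _ _) ih

end Pool.Agent.Work.MP_2bf34e_al
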