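import Pool.Agent.Work.MP_2bf34e_al.Span

set_option autoImplicit false

namespace Pool.Agent.Work.MP_2bf34e_al

open ExteriorAlgebra

section ring

variable {K A : Type*} [Field K] [Ring A] [Algebra K A]

lemma pow_mul_sub (G m : A) (hGm : G * m = m * G) (hm : m * m = 0) (s : ℕ) :
    (G + m) ^ s * (G - (s : K) • m) = G ^ (s + 1) := by
  induction s with
  | zero => simp
  | succ s ih =>
    have h1 : (G + m) * (G - ((s + 1 : ℕ) : K) • m) = (G - (s : K) • m) * G := by
      rw [add_mul, mul_sub, mul_sub, mul_smul_comm, mul_smul_comm, hm, smul_zero, sub_zero,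
        sub_mul, smul_mul_assoc, ← hGm]
      push_cast
      rw [add_smul, one_smul]
      abel
    rw [pow_succ (G + m), mul_assoc, h1, ← mul_assoc, ih, ← pow_succ]

lemma pow_expand (G m : A) (hGm : G * m = m * G) (hm : m * m = 0) (s : ℕ) :
    (G + m) ^ (s + 1) = G ^ (s + 1) + ((s + 1 : ℕ) : K) • (G ^ s * m) := by
  induction s with
  | zero => simp
  | succ s ih =>
    rw [pow_succ (G + m), ih, add_mul, mul_add, ← pow_succ, smul_mul_assoc, mul_add, mul_assoc,
      ← hGm, mul_assoc, hm, mul_zero, add_zero, ← mul_assoc, ← pow_succ, add_assoc]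
    congr 1
    push_cast
    rw [add_smul ((s : K) + 1) 1, one_smul]
    abel

end ring

variable {K V V' : Type*} [Field K] [AddCommGroup V] [Module K V] [AddCommGroup V'] [Module K V']

lemma map_mem_R (j : V →ₗ[K] V') {r : ℕ} {f : Fin r → ExteriorAlgebra K V}
    {x : ExteriorAlgebra K V} (hx : x ∈ R f) :
    ExteriorAlgebra.map j x ∈ R (fun i => ExteriorAlgebra.map j (f i)) := by
  rw [mem_R] at hx ⊢
  obtain ⟨z, rfl⟩ := hx
  exact ⟨fun i => ExteriorAlgebra.map j (z i), by rw [map_sum]; simp only [map_mul]⟩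

section

variable (j : V →ₗ[K] V') {d : ℕ} (y : Fin d → V') (g : ExteriorAlgebra K V)

/-- the new generator -/
noncomputable def gen : ExteriorAlgebra K V' := ExteriorAlgebra.map j g + yC K y Finset.univ

lemma univ_mem : yC K y Finset.univ ∈ ⋀[K]^d V' := by
  have := yC_mem (K := K) y Finset.univ
  rwa [Finset.card_univ, Fintype.card_fin] at this

lemma gen_mem (hg : g ∈ ⋀[K]^d V) : gen j y g ∈ ⋀[K]^d V' :=
  Submodule.add_mem _ (map_mem j hg) (univ_mem y)

lemma univ_mul_yC {C : Finset (Fin d)} (hC : C ≠ ∅) : yC K y Finset.univ * yC K y C = 0 := by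
  apply yC_mul_of_not_disjoint
  intro h
  apply hC
  rw [Finset.disjoint_iff_inter_eq_empty, Finset.univ_inter] at h
  exact h

lemma univ_sq (hd : 1 ≤ d) : yC K y Finset.univ * yC K y Finset.univ = 0 := by
  apply univ_mul_yC
  intro h
  have : (⟨0, hd⟩ : Fin d) ∈ (∅ : Finset (Fin d)) := by rw [← h]; exact Finset.mem_univ _
  simp at this

lemma gen_pow_mul {C : Finset (Fin d)} (hC : C ≠ ∅) (s : ℕ) (W : ExteriorAlgebra K V') :
    gen j y g ^ s * (W * yC K y C) = ExteriorAlgebra.map j g ^ s * (W * yC K y C) := by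
  induction s generalizing W with
  | zero => simp
  | succ s ih =>
    have h1 : gen j y g * (W * yC K y C) = (ExteriorAlgebra.map j g * W) * yC K y C := by
      unfold gen
      rw [add_mul, kill (univ_mem y) (univ_mul_yC y hC), add_zero, mul_assoc]
    rw [pow_succ, mul_assoc, h1, ih, pow_succ]
    simp only [mul_assoc]

end

/-- block step -/
theorem block_step [FiniteDimensional K V] [FiniteDimensional K V']
    (j : V →ₗ[K] V') {d : ℕ} (hd : 1 ≤ d) (y : Fin d → V')
    (hs : LinearMap.range j ⊔ Submodule.span K (Set.range y) = ⊤)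
    {r : ℕ} (f : Fin r → ExteriorAlgebra K V) (δ : Fin r → ℕ) (hf : ∀ i, f i ∈ ⋀[K]^(δ i) V)
    (g : ExteriorAlgebra K V) (hg : g ∈ ⋀[K]^d V) (s : ℕ) (hs1 : 1 ≤ s)
    (hcase : (Even d ∧ (s : K) ≠ 0) ∨ (Odd d ∧ s = 1)) (D : ℕ) :
    qdim (R (Fin.snoc (fun i => ExteriorAlgebra.map j (f i)) (gen j y g ^ s) :
        Fin (r + 1) → ExteriorAlgebra K V')) (⋀[K]^D V') ≤
      ∑ C ∈ (Finset.univ : Finset (Finset (Fin d))).filter (fun C => C.card ≤ D),
        qdim (R (Fin.snoc f (g ^ (if C = ∅ then s + 1 else if C = Finset.univ then s - 1 else s)) :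
          Fin (r + 1) → ExteriorAlgebra K V)) (⋀[K]^(D - C.card) V) := by
  classical
  set G := ExteriorAlgebra.map j g with hG
  set m := yC K y Finset.univ with hm
  have hGd : G ∈ ⋀[K]^d V' := map_mem j hg
  have hmd : m ∈ ⋀[K]^d V' := univ_mem y
  have hmm : m * m = 0 := univ_sq y hd
  have hne : (∅ : Finset (Fin d)) ≠ Finset.univ := by
    intro h
    have : (⟨0, hd⟩ : Fin d) ∈ (∅ : Finset (Fin d)) := by rw [h]; exact Finset.mem_univ _
    simp at this
  have hgen : gen j y g = G + m := rfl
  have hRf : ∀ u ∈ R f, ∀ z, ExteriorAlgebra.map j u * z ∈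
      R (Fin.snoc (fun i => ExteriorAlgebra.map j (f i)) (gen j y g ^ s) :
        Fin (r + 1) → ExteriorAlgebra K V') := by
    intro u hu z
    exact R_le_snoc _ _ (R_mul_right (map_mem_R j hu) z)
  have hRg : ∀ z, gen j y g ^ s * z ∈
      R (Fin.snoc (fun i => ExteriorAlgebra.map j (f i)) (gen j y g ^ s) :
        Fin (r + 1) → ExteriorAlgebra K V') := by
    intro z
    exact mem_R_snoc.mpr ⟨0, Submodule.zero_mem _, z, by rw [zero_add]⟩
  apply count_lemma j hd y hs
  · -- C ≠ univ
    intro C hC x hx _
    by_cases hC0 : C = ∅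
    · subst hC0
      rw [if_pos rfl] at hx
      obtain ⟨u, hu, w, rfl⟩ := mem_R_snoc.mp hx
      rw [yC_empty, mul_one, map_add]
      apply Submodule.add_mem
      · simpa using hRf u hu 1
      · rw [map_mul, map_pow, ← hG]
        rcases hcase with ⟨hev, -⟩ | ⟨hodd, rfl⟩
        · have hc : G * m = m * G := even_central hGd hev m
          rw [← pow_mul_sub (K := K) G m hc hmm s, mul_assoc, ← hgen]
          exact hRg _
        · rw [show (1 + 1) = 2 from rfl, pow_two, sq_zero_of_odd hodd hGd, zero_mul]
          exact Submodule.zero_mem _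
    · rw [if_neg hC0, if_neg hC] at hx
      obtain ⟨u, hu, w, rfl⟩ := mem_R_snoc.mp hx
      rw [map_add, add_mul]
      apply Submodule.add_mem _ (hRf u hu _)
      rw [map_mul, map_pow, mul_assoc, ← gen_pow_mul j y g hC0]
      exact hRg _
  · intro hdD x hx hxD
    rw [if_neg hne.symm, if_pos rfl] at hx
    have hgs : g ^ (s - 1) ∈ ⋀[K]^((s - 1) * d) V := pow_mem_mul hg _
    obtain ⟨u, hu, w, rfl, hw1, hw2⟩ := mem_R_snoc_homog hf hgs hxD hx
    by_cases hle : (s - 1) * d ≤ D - d
    · have hwD := hw1 hle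
      rcases hcase with ⟨hev, hsK⟩ | ⟨hodd, rfl⟩
      · have hc : G * m = m * G := even_central hGd hev m
        refine ⟨- (s : K)⁻¹ • (g ^ s * w), ?_, ?_⟩
        · apply Submodule.smul_mem
          have := mul_mem_add (pow_mem_mul hg s) hwD
          have e : s * d + (D - d - (s - 1) * d) = D := by
            have : s * d = (s - 1) * d + d := by
              obtain ⟨t, rfl⟩ := Nat.exists_eq_add_of_le hs1
              simp only [Nat.add_sub_cancel_left]
              ring
            omega
          rwa [e] at this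
        · have hexp := pow_expand (K := K) G m hc hmm (s - 1)
          rw [show s - 1 + 1 = s by omega] at hexp
          rw [← hgen] at hexp
          have hmw : m * ExteriorAlgebra.map j w = ExteriorAlgebra.map j w * m :=
            even_central hmd hev _
          have key : ExteriorAlgebra.map j (u + g ^ (s - 1) * w) * m -
              ExteriorAlgebra.map j (- (s : K)⁻¹ • (g ^ s * w)) =
              ExteriorAlgebra.map j u * m +
                (s : K)⁻¹ • (gen j y g ^ s * ExteriorAlgebra.map j w) := by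
            rw [hexp, add_mul, smul_add, smul_mul_assoc, smul_smul, inv_mul_cancel₀ hsK, one_smul,
              map_add, add_mul, map_mul, map_pow, ← hG, map_smul, map_mul, map_pow, ← hG,
              mul_assoc _ _ m, ← hmw, ← mul_assoc, neg_smul]
            abel
          rw [key]
          exact Submodule.add_mem _ (hRf u hu m) (Submodule.smul_mem _ _ (hRg _))
      · simp only [Nat.sub_self, pow_zero, one_mul, zero_mul, Nat.sub_zero] at hwD ⊢
        refine ⟨- (-1 : K) ^ ((D - d) * d) • (g * w), ?_, ?_⟩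
        · apply Submodule.smul_mem
          have := mul_mem_add hg hwD
          rwa [show d + (D - d) = D by omega] at this
        · have hmw := gr_comm (map_mem j hwD) hmd
          have key : ExteriorAlgebra.map j (u + w) * m -
              ExteriorAlgebra.map j (- (-1 : K) ^ ((D - d) * d) • (g * w)) =
              ExteriorAlgebra.map j u * m +
                (-1 : K) ^ ((D - d) * d) • (gen j y g ^ 1 * ExteriorAlgebra.map j w) := by
            rw [pow_one, hgen, map_add, add_mul, hmw, map_smul, map_mul, ← hG, add_mul, smul_add,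
              neg_smul]
            abel
          rw [key]
          exact Submodule.add_mem _ (hRf u hu m) (Submodule.smul_mem _ _ (hRg _))
    · refine ⟨0, Submodule.zero_mem _, ?_⟩
      rw [hw2 hle, mul_zero, add_zero, map_zero, sub_zero]
      exact hRf u hu _

/-- simple step -/
theorem simple_step [FiniteDimensional K V] [FiniteDimensional K V']
    (j : V →ₗ[K] V') {d : ℕ} (hd : 1 ≤ d) (y : Fin d → V')
    (hs : LinearMap.range j ⊔ Submodule.span K (Set.range y) = ⊤)
    {r : ℕ} (f : Fin r → ExteriorAlgebra K V) (D : ℕ) :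
    qdim (R (fun i => ExteriorAlgebra.map j (f i))) (⋀[K]^D V') ≤
      ∑ C ∈ (Finset.univ : Finset (Finset (Fin d))).filter (fun C => C.card ≤ D),
        qdim (R f) (⋀[K]^(D - C.card) V) := by
  apply count_lemma j hd y hs D _ (fun _ => R f)
  · intro C _ x hx _
    exact R_mul_right (map_mem_R j hx) _
  · intro _ x hx _
    refine ⟨0, Submodule.zero_mem _, ?_⟩
    rw [map_zero, sub_zero]
    exact R_mul_right (map_mem_R j hx) _

end Pool.Agent.Work.MP_2bf34e_al
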