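import Pool.Agent.Work.MP_2bf34e_al.RIdeal

set_option autoImplicit false

namespace Pool.Agent.Work.MP_2bf34e_al

open ExteriorAlgebra

section line

variable {K A B : Type*} [Field K] [AddCommGroup A] [Module K A] [AddCommGroup B] [Module K B]
  [FiniteDimensional K A] [FiniteDimensional K B]

lemma rank_line (P Q : A →ₗ[K] B) :
    {t : K | Module.finrank K (LinearMap.range (P + t • Q)) <
      Module.finrank K (LinearMap.range P)}.Finite := by
  obtain ⟨σ, hσ⟩ := P.rangeRestrict.exists_rightInverse_of_surjective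
    (LinearMap.range_rangeRestrict P)
  obtain ⟨π, hπ⟩ := (LinearMap.range P).subtype.exists_leftInverse_of_injective
    (Submodule.ker_subtype _)
  let N : (LinearMap.range P) →ₗ[K] (LinearMap.range P) := π ∘ₗ Q ∘ₗ σ
  have hfin : {μ : K | Module.End.HasEigenvalue N μ}.Finite := Module.End.finite_hasEigenvalue N
  apply (hfin.image (fun μ => - μ⁻¹)).subset
  intro t ht
  simp only [Set.mem_ofPred_eq] at ht
  have hPσ : ∀ w, P (σ w) = w := by
    intro w
    have := LinearMap.congr_fun hσ w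
    exact congrArg Subtype.val this
  have hπw : ∀ w : LinearMap.range P, π w = w := by
    intro w
    exact LinearMap.congr_fun hπ w
  -- non injectivity
  have hninj : ¬ Function.Injective ((P + t • Q) ∘ₗ σ) := by
    intro hinj
    have h1 := LinearMap.finrank_range_of_inj hinj
    have h2 : LinearMap.range ((P + t • Q) ∘ₗ σ) ≤ LinearMap.range (P + t • Q) :=
      LinearMap.range_comp_le_range _ _
    have h3 := Submodule.finrank_mono h2
    omega
  rw [← LinearMap.ker_eq_bot, Submodule.eq_bot_iff] at hninj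
  push Not at hninj
  obtain ⟨w, hw, hw0⟩ := hninj
  rw [LinearMap.mem_ker] at hw
  simp only [LinearMap.comp_apply, LinearMap.add_apply, LinearMap.smul_apply, hPσ] at hw
  have h4 : w + t • N w = 0 := by
    have := congrArg π hw
    rw [map_add, map_smul, hπw, map_zero] at this
    exact this
  have ht0 : t ≠ 0 := by
    rintro rfl
    rw [zero_smul, add_zero] at h4
    exact hw0 h4
  refine ⟨- t⁻¹, ?_, by simp only [inv_neg, inv_inv, neg_neg]⟩
  apply Module.End.hasEigenvalue_of_hasEigenvector (x := w)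
  rw [Module.End.hasEigenvector_iff, Module.End.mem_eigenspace_iff]
  refine ⟨?_, hw0⟩
  have : t • N w = - w := eq_neg_of_add_eq_zero_right h4
  calc N w = t⁻¹ • (t • N w) := by rw [smul_smul, inv_mul_cancel₀ ht0, one_smul]
    _ = - t⁻¹ • w := by rw [this, smul_neg, neg_smul]

end line

variable {K V : Type*} [Field K] [AddCommGroup V] [Module K V]

lemma Phi_add_smul {r : ℕ} (f g : Fin r → ExteriorAlgebra K V) (t : K) :
    Phi (f + t • g) = Phi f + t • Phi g := by
  apply LinearMap.ext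
  intro z
  rw [LinearMap.add_apply, LinearMap.smul_apply, Phi_apply, Phi_apply, Phi_apply, Finset.smul_sum,
    ← Finset.sum_add_distrib]
  apply Finset.sum_congr rfl
  intro i _
  rw [Pi.add_apply, Pi.smul_apply, add_mul, smul_mul_assoc]

/-- projection to degree `k` -/
noncomputable def pr (K V : Type*) [Field K] [AddCommGroup V] [Module K V] (k : ℕ) :
    ExteriorAlgebra K V →ₗ[K] ExteriorAlgebra K V :=
  GradedAlgebra.proj (fun i : ℕ => ⋀[K]^i V) k

lemma pr_apply (k : ℕ) (x : ExteriorAlgebra K V) :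
    pr K V k x = (DirectSum.decompose (fun i : ℕ => ⋀[K]^i V) x k : ExteriorAlgebra K V) := rfl

lemma pr_mem_R {r : ℕ} {f : Fin r → ExteriorAlgebra K V} {d : Fin r → ℕ}
    (hf : ∀ i, f i ∈ ⋀[K]^(d i) V) (k : ℕ) {x : ExteriorAlgebra K V}
    (hx : x ∈ R f) : pr K V k x ∈ R f := by
  classical
  rw [mem_R] at hx
  obtain ⟨z, rfl⟩ := hx
  rw [map_sum]
  apply Submodule.sum_mem
  intro i _
  rw [pr_apply, DirectSum.coe_decompose_mul_of_left_mem (fun i : ℕ => ⋀[K]^i V) k (hf i)]
  split_ifs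
  · exact R_mul_right (f_mem_R f i) _
  · exact Submodule.zero_mem _

/-- rank in degree `k` -/
noncomputable def rk {r : ℕ} (f : Fin r → ExteriorAlgebra K V) (k : ℕ) : ℕ :=
  Module.finrank K (LinearMap.range (pr K V k ∘ₗ Phi f))

lemma range_eq {r : ℕ} {f : Fin r → ExteriorAlgebra K V} {d : Fin r → ℕ}
    (hf : ∀ i, f i ∈ ⋀[K]^(d i) V) (k : ℕ) :
    LinearMap.range (pr K V k ∘ₗ Phi f) = R f ⊓ ⋀[K]^k V := by
  rw [LinearMap.range_comp]
  apply le_antisymm
  · rintro _ ⟨x, hx, rfl⟩
    exact ⟨pr_mem_R hf k hx, SetLike.coe_mem _⟩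
  · rintro x ⟨hx1, hx2⟩
    refine ⟨x, hx1, ?_⟩
    rw [pr_apply]
    exact DirectSum.decompose_of_mem_same _ hx2

variable [FiniteDimensional K V]

lemma qdim_add_finrank {E : Type*} [AddCommGroup E] [Module K E] [FiniteDimensional K E]
    (J S : Submodule K E) :
    qdim J S + Module.finrank K (J ⊓ S : Submodule K E) = Module.finrank K S := by
  have h1 := LinearMap.finrank_range_add_finrank_ker (J.mkQ.domRestrict S)
  rw [LinearMap.range_domRestrict] at h1
  have h2 : LinearMap.ker (J.mkQ.domRestrict S) = (LinearMap.ker J.mkQ).comap S.subtype := rfl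
  rw [h2, Submodule.ker_mkQ] at h1
  rw [inf_comm, ← Submodule.map_comap_subtype, Submodule.finrank_map_subtype_eq]
  exact h1

lemma qdim_add_rk {r : ℕ} {f : Fin r → ExteriorAlgebra K V} {d : Fin r → ℕ}
    (hf : ∀ i, f i ∈ ⋀[K]^(d i) V) (k : ℕ) :
    qdim (R f) (⋀[K]^k V) + rk f k = Module.finrank K (⋀[K]^k V) := by
  rw [rk, range_eq hf]
  exact qdim_add_finrank _ _

lemma exists_common [Infinite K] {r : ℕ} {d : Fin r → ℕ} (f g : Fin r → ExteriorAlgebra K V)
    (hf : ∀ i, f i ∈ ⋀[K]^(d i) V) (hg : ∀ i, g i ∈ ⋀[K]^(d i) V) (s : Finset ℕ) (k : ℕ) :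
    ∃ h : Fin r → ExteriorAlgebra K V, (∀ i, h i ∈ ⋀[K]^(d i) V) ∧
      (∀ j ∈ s, rk f j ≤ rk h j) ∧ rk g k ≤ rk h k := by
  classical
  have h1 : ∀ j, {t : K | rk (f + t • (g - f)) j < rk f j}.Finite := by
    intro j
    have := rank_line (pr K V j ∘ₗ Phi f) (pr K V j ∘ₗ Phi (g - f))
    refine this.subset ?_
    intro t ht
    simp only [Set.mem_ofPred_eq, rk] at ht ⊢
    rwa [Phi_add_smul, LinearMap.comp_add, LinearMap.comp_smul] at ht
  have h2 : {t : K | rk (f + t • (g - f)) k < rk g k}.Finite := by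
    have := rank_line (pr K V k ∘ₗ Phi g) (pr K V k ∘ₗ Phi (f - g))
    have h3 := this.preimage (f := fun t : K => 1 - t) (by
      intro a _ b _ hab
      simpa using hab)
    refine h3.subset ?_
    intro t ht
    simp only [Set.mem_ofPred_eq, rk, Set.mem_preimage] at ht ⊢
    have e : f + t • (g - f) = g + (1 - t) • (f - g) := by
      rw [sub_smul, one_smul, smul_sub, smul_sub]
      abel
    rw [e, Phi_add_smul, LinearMap.comp_add, LinearMap.comp_smul] at ht
    exact ht
  have h3 : ((⋃ j ∈ s, {t : K | rk (f + t • (g - f)) j < rk f j}) ∪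
      {t : K | rk (f + t • (g - f)) k < rk g k}).Finite :=
    (s.finite_toSet.biUnion (fun j _ => h1 j)).union h2
  obtain ⟨t, ht⟩ := h3.infinite_compl.nonempty
  simp only [Set.mem_compl_iff, Set.mem_union, Set.mem_iUnion, Set.mem_ofPred_eq, not_or,
    not_exists, not_lt] at ht
  refine ⟨f + t • (g - f), ?_, fun j hj => ht.1 j hj, ht.2⟩
  intro i
  exact Submodule.add_mem _ (hf i) (Submodule.smul_mem _ _ (Submodule.sub_mem _ (hg i) (hf i)))

/-- existence of tuples with simultaneously minimal dimensions -/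
theorem exists_generic [Infinite K] {r : ℕ} (d : Fin r → ℕ) :
    ∃ f : Fin r → ExteriorAlgebra K V, (∀ i, f i ∈ ⋀[K]^(d i) V) ∧
      ∀ g : Fin r → ExteriorAlgebra K V, (∀ i, g i ∈ ⋀[K]^(d i) V) → ∀ k,
        qdim (R f) (⋀[K]^k V) ≤ qdim (R g) (⋀[K]^k V) := by
  classical
  set n := Module.finrank K V with hn
  let S : Set ℕ := {m | ∃ f : Fin r → ExteriorAlgebra K V, (∀ i, f i ∈ ⋀[K]^(d i) V) ∧
    m = ∑ k ∈ Finset.range (n + 1), rk f k}
  have hS : S.Nonempty := ⟨_, 0, fun i => Submodule.zero_mem _, rfl⟩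
  have hb : BddAbove S := by
    refine ⟨∑ k ∈ Finset.range (n + 1), Module.finrank K (⋀[K]^k V), ?_⟩
    rintro m ⟨f, hf, rfl⟩
    apply Finset.sum_le_sum
    intro k _
    have := qdim_add_rk hf k
    omega
  obtain ⟨f, hf, hfm⟩ := Nat.sSup_mem hS hb
  refine ⟨f, hf, ?_⟩
  intro g hg k
  have e1 := qdim_add_rk hf k
  have e2 := qdim_add_rk hg k
  by_cases hk : k ≤ n
  · by_contra hcon
    have hlt : rk f k < rk g k := by omega
    obtain ⟨h, hh, h1, h2⟩ := exists_common f g hf hg (Finset.range (n + 1)) k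
    have h3 : ∑ k ∈ Finset.range (n + 1), rk f k < ∑ k ∈ Finset.range (n + 1), rk h k := by
      apply Finset.sum_lt_sum h1
      exact ⟨k, by rw [Finset.mem_range]; omega, by omega⟩
    have h4 : ∑ k ∈ Finset.range (n + 1), rk h k ≤ sSup S := le_csSup hb ⟨h, hh, rfl⟩
    omega
  · have : Module.finrank K (⋀[K]^k V) = 0 := by
      rw [exteriorPower.finrank_eq, Nat.choose_eq_zero_of_lt (by omega)]
    omega

end Pool.Agent.Work.MP_2bf34e_al
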