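import Pool.Agent.Work.MP_2bf34e_al.PartB
import Pool.Agent.Work.MP_2bf34e_al.Generic

set_option autoImplicit false

namespace Pool.Agent.Work.MP_2bf34e_al

open ExteriorAlgebra PowerSeries

lemma G_mul_sub (q e : ℕ) (he : 1 ≤ e) :
    G q e * (1 - X ^ e) = if q = 0 then 1 else 1 - X ^ (q * e) := by
  ext k
  rw [mul_sub, mul_one, map_sub, mul_comm (G q e), coeff_X_pow_mul']
  have hG : ∀ j, coeff j (G q e) = if e ∣ j ∧ (q = 0 ∨ j / e < q) then 1 else 0 :=
    fun j => coeff_mk _ _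
  simp only [hG]
  by_cases hek : e ∣ k
  · obtain ⟨c, rfl⟩ := hek
    rw [Nat.mul_div_cancel_left c (by omega)]
    by_cases hc : c = 0
    · subst hc
      rw [mul_zero, if_neg (by omega : ¬ e ≤ 0)]
      by_cases hq : q = 0
      · simp [hq]
      · rw [if_neg hq, if_pos ⟨dvd_zero _, Or.inr (by omega)⟩, map_sub, coeff_X_pow,
          if_neg (by positivity), coeff_zero_one]
    · obtain ⟨c', rfl⟩ := Nat.exists_eq_succ_of_ne_zero hc
      have h1 : e ≤ e * (c' + 1) := Nat.le_mul_of_pos_right e (by omega)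
      have h2 : e * (c' + 1) - e = e * c' := by rw [Nat.mul_succ]; omega
      have h3 : e * (c' + 1) ≠ 0 := by positivity
      rw [Nat.succ_eq_add_one, if_pos h1, h2, Nat.mul_div_cancel_left c' (by omega)]
      by_cases hq : q = 0
      · simp [hq, coeff_one, h3]
      · rw [if_neg hq, map_sub, coeff_X_pow, coeff_one, if_neg h3]
        have h4 : (e * (c' + 1) = q * e) ↔ c' + 1 = q := by
          rw [mul_comm q e]
          constructor
          · intro h; exact Nat.eq_of_mul_eq_mul_left (by omega) h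
          · intro h; rw [h]
        have d1 : e ∣ e * (c' + 1) := Dvd.intro _ rfl
        have d2 : e ∣ e * c' := Dvd.intro _ rfl
        simp only [h4, d1, d2, true_and, hq, false_or]
        split_ifs <;> first | omega | simp
  · have h1 : ¬ (e ∣ k ∧ (q = 0 ∨ k / e < q)) := fun h => hek h.1
    rw [if_neg h1]
    have h2 : (if e ≤ k then (if e ∣ k - e ∧ (q = 0 ∨ (k - e) / e < q) then (1 : ℤ) else 0)
        else 0) = 0 := by
      split_ifs with h3 h4
      · exfalso
        apply hek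
        have h5 := Nat.dvd_add h4.1 (dvd_refl e)
        rwa [Nat.sub_add_cancel h3] at h5
      · rfl
      · rfl
    rw [h2, sub_zero]
    have hk0 : k ≠ 0 := by rintro rfl; exact hek (dvd_zero _)
    split_ifs
    · rw [coeff_one, if_neg hk0]
    · rw [map_sub, coeff_one, if_neg hk0, coeff_X_pow, if_neg, sub_zero]
      rintro rfl
      exact hek (Dvd.intro_left q rfl)

lemma G_inv (q e : ℕ) (he : 1 ≤ e) : G q e * ((1 - X ^ e) * U q e) = 1 := by
  rw [← mul_assoc, G_mul_sub q e he]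
  by_cases hq : q = 0
  · rw [if_pos hq, U, if_pos hq, mul_one]
  · rw [if_neg hq, U_mul q e hq he]

/-- squeezing lemma -/
lemma squeeze (k : ℕ) (h φ P : ℤ⟦X⟧) (hP : CLe 0 P) (hP0 : coeff 0 P = 1)
    (h1 : ∀ D, D ≤ k → coeff D h ≤ coeff D φ)
    (h2 : ∀ D, coeff D (φ * P) ≤ coeff D (h * P)) (D : ℕ) (hD : D ≤ k) :
    coeff D h = coeff D φ := by
  apply le_antisymm (h1 D hD)
  have h3 : coeff D ((φ - h) * P) ≤ 0 := by
    rw [sub_mul, map_sub]
    have := h2 D
    omega
  rw [coeff_mul] at h3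
  have h4 : coeff D (φ - h) * coeff 0 P ≤
      ∑ p ∈ Finset.HasAntidiagonal.antidiagonal D, coeff p.1 (φ - h) * coeff p.2 P := by
    apply Finset.single_le_sum (f := fun p : ℕ × ℕ => coeff p.1 (φ - h) * coeff p.2 P)
      (a := (D, 0))
    · rintro ⟨i, j⟩ hij
      rw [Finset.HasAntidiagonal.mem_antidiagonal] at hij
      simp only at hij
      have e1 := h1 i (by omega)
      have e2 := hP j
      rw [map_zero] at e2
      apply mul_nonneg _ e2
      rw [map_sub]
      exact sub_nonneg.mpr e1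
    · simp
  rw [hP0, mul_one, map_sub] at h4
  omega

lemma CLe_prod {r : ℕ} (g : Fin r → ℤ⟦X⟧) (hg : ∀ i, CLe 0 (g i)) : CLe 0 (∏ i, g i) := by
  classical
  have : ∀ s : Finset (Fin r), CLe 0 (∏ i ∈ s, g i) := by
    intro s
    induction s using Finset.induction_on with
    | empty =>
      intro k
      rw [Finset.prod_empty, map_zero, coeff_one]
      split_ifs <;> simp
    | insert a s ha ih =>
      rw [Finset.prod_insert ha]
      exact CLe_zero_mul (hg a) ih
  exact this _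

/-- main numerical theorem -/
theorem main (K : Type*) [Field K] (k : ℕ) (r : ℕ) (δ q : Fin r → ℕ) (hδ : ∀ i, 1 ≤ δ i)
    (hq1 : ∀ i, q i ≠ 1)
    (hq : ∀ i s, 1 ≤ s → (q i = 0 ∨ s < q i) →
      ((Even (δ i) ∧ (s : K) ≠ 0) ∨ (Odd (δ i) ∧ s = 1)))
    (hnil : ∀ i (n : ℕ) (f : ExteriorAlgebra K (Fin n → K)), f ∈ ⋀[K]^(δ i) (Fin n → K) →
      (q i = 0 ∨ f ^ q i = 0)) :
    ∃ N : ℕ, ∀ n, N ≤ n → ∀ f : Fin r → ExteriorAlgebra K (Fin n → K),
      (∀ i, f i ∈ ⋀[K]^(δ i) (Fin n → K)) →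
      (∀ g : Fin r → ExteriorAlgebra K (Fin n → K), (∀ i, g i ∈ ⋀[K]^(δ i) (Fin n → K)) → ∀ k,
        qdim (R f) (⋀[K]^k (Fin n → K)) ≤ qdim (R g) (⋀[K]^k (Fin n → K))) →
      ∀ D, D ≤ k → coeff D (Hs (R f)) =
        coeff D ((1 + X) ^ n * ∏ i, ((1 - X ^ (δ i)) * U (q i) (δ i))) := by
  obtain ⟨N, hN⟩ := partB K k r δ q hδ hq1 hq
  refine ⟨N, fun n hn f hf hmin => ?_⟩
  obtain ⟨F, hF, hFb⟩ := hN n hn
  have hA := partA f δ q hδ hf (fun i => hnil i n _ (hf i))
  rw [Module.finrank_fin_fun] at hA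
  apply squeeze k _ _ (∏ i, G (q i) (δ i))
  · exact CLe_prod _ fun i => G_nonneg _ _
  · rw [coeff_zero_eq_constantCoeff_apply, map_prod]
    apply Finset.prod_eq_one
    intro i _
    rw [← coeff_zero_eq_constantCoeff_apply, G_coeff_zero]
  · intro D hD
    refine le_trans ?_ (hFb D hD)
    rw [Hs, coeff_mk]
    exact_mod_cast hmin F hF D
  · intro D
    have e : (1 + X : ℤ⟦X⟧) ^ n * (∏ i, ((1 - X ^ (δ i)) * U (q i) (δ i))) *
        ∏ i, G (q i) (δ i) = (1 + X) ^ n := by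
      rw [mul_assoc, ← Finset.prod_mul_distrib, Finset.prod_eq_one, mul_one]
      intro i _
      rw [mul_comm, G_inv _ _ (hδ i)]
    rw [e]
    exact hA D

end Pool.Agent.Work.MP_2bf34e_al
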