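import Pool.Agent.Work.MP_2bf34e_al.RIdeal

set_option autoImplicit false

namespace Pool.Agent.Work.MP_2bf34e_al

open ExteriorAlgebra PowerSeries

variable {K V : Type*} [Field K] [AddCommGroup V] [Module K V]

/-- The series `∑_{a, q = 0 ∨ a < q} t^(a e)`. -/
noncomputable def G (q e : ℕ) : ℤ⟦X⟧ :=
  PowerSeries.mk (fun j => if e ∣ j ∧ (q = 0 ∨ j / e < q) then 1 else 0)

/-- The series of dimensions of graded pieces of `E / J`. -/
noncomputable def Hs (J : Submodule K (ExteriorAlgebra K V)) : ℤ⟦X⟧ :=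
  PowerSeries.mk (fun k => (qdim J (⋀[K]^k V) : ℤ))

/-- coefficientwise order -/
def CLe (a b : ℤ⟦X⟧) : Prop := ∀ k, coeff k a ≤ coeff k b

lemma CLe.trans {a b c : ℤ⟦X⟧} (h1 : CLe a b) (h2 : CLe b c) : CLe a c :=
  fun k => (h1 k).trans (h2 k)

lemma CLe.mul_right {a b c : ℤ⟦X⟧} (h : CLe a b) (hc : CLe 0 c) : CLe (a * c) (b * c) := by
  intro k
  rw [coeff_mul, coeff_mul]
  apply Finset.sum_le_sum
  intro p _
  have := hc p.2
  rw [map_zero] at this
  exact mul_le_mul_of_nonneg_right (h p.1) this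

lemma CLe_zero_mul {a b : ℤ⟦X⟧} (ha : CLe 0 a) (hb : CLe 0 b) : CLe 0 (a * b) := by
  have := ha.mul_right hb
  rwa [zero_mul] at this

lemma G_nonneg (q e : ℕ) : CLe 0 (G q e) := by
  intro k
  rw [map_zero, G, coeff_mk]
  split_ifs <;> simp

lemma G_coeff_zero (q e : ℕ) : coeff 0 (G q e) = 1 := by
  rw [G, coeff_mk]
  rw [if_pos]
  refine ⟨dvd_zero _, ?_⟩
  rw [Nat.zero_div]
  omega

variable [FiniteDimensional K V]

lemma partA_span {r : ℕ} {f : Fin r → ExteriorAlgebra K V} {d : Fin r → ℕ}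
    (hf : ∀ i, f i ∈ ⋀[K]^(d i) V) {g : ExteriorAlgebra K V} {e : ℕ} (he : 1 ≤ e)
    (hg : g ∈ ⋀[K]^e V) (P : ℕ → Submodule K (ExteriorAlgebra K V))
    (hP : ∀ k, ⋀[K]^k V ≤ P k ⊔ (R (Fin.snoc f g : Fin (r + 1) → ExteriorAlgebra K V) ⊓ ⋀[K]^k V))
    (k : ℕ) :
    ⋀[K]^k V ≤ R f ⊔ ⨆ p ∈ (Finset.HasAntidiagonal.antidiagonal k).filter (fun p => e ∣ p.2),
      (P p.1).map (LinearMap.mulLeft K (g ^ (p.2 / e))) := by
  induction k using Nat.strong_induction_on with
  | _ k ih =>
    intro x hx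
    obtain ⟨y, hy, u, ⟨hu1, hu2⟩, rfl⟩ := Submodule.mem_sup.mp (hP k hx)
    apply Submodule.add_mem
    · apply Submodule.mem_sup_right
      have : ((k, 0) : ℕ × ℕ) ∈ (Finset.HasAntidiagonal.antidiagonal k).filter (fun p => e ∣ p.2) := by
        simp
      refine Submodule.mem_iSup_of_mem (k, 0) (Submodule.mem_iSup_of_mem this ?_)
      exact ⟨y, hy, by simp⟩
    · obtain ⟨v, hv, w, rfl, hw1, hw2⟩ := mem_R_snoc_homog hf hg hu2 hu1
      apply Submodule.add_mem
      · exact Submodule.mem_sup_left hv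
      · by_cases hek : e ≤ k
        · have hw := ih (k - e) (by omega) (hw1 hek)
          obtain ⟨a, ha, b, hb, rfl⟩ := Submodule.mem_sup.mp hw
          rw [mul_add]
          apply Submodule.add_mem
          · exact Submodule.mem_sup_left (R_mul_left hf ha g)
          · apply Submodule.mem_sup_right
            have hmap : (⨆ p ∈ (Finset.HasAntidiagonal.antidiagonal (k - e)).filter (fun p => e ∣ p.2),
                (P p.1).map (LinearMap.mulLeft K (g ^ (p.2 / e)))).map (LinearMap.mulLeft K g) ≤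
                ⨆ p ∈ (Finset.HasAntidiagonal.antidiagonal k).filter (fun p => e ∣ p.2),
                  (P p.1).map (LinearMap.mulLeft K (g ^ (p.2 / e))) := by
              rw [Submodule.map_iSup]
              apply iSup_le
              rintro ⟨i, j⟩
              rw [Submodule.map_iSup]
              apply iSup_le
              intro hij
              simp only [Finset.mem_filter, Finset.HasAntidiagonal.mem_antidiagonal] at hij
              rw [← Submodule.map_comp]
              have hmem : ((i, j + e) : ℕ × ℕ) ∈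
                  (Finset.HasAntidiagonal.antidiagonal k).filter (fun p => e ∣ p.2) := by
                simp only [Finset.mem_filter, Finset.HasAntidiagonal.mem_antidiagonal]
                exact ⟨by omega, (Nat.dvd_add_right hij.2).mpr dvd_rfl⟩
              refine le_trans ?_ (le_iSup₂_of_le (i, j + e) hmem le_rfl)
              rintro _ ⟨z, hz, rfl⟩
              refine ⟨z, hz, ?_⟩
              simp only [LinearMap.comp_apply, LinearMap.mulLeft_apply]
              rw [Nat.add_div_right _ (by omega), pow_succ', mul_assoc]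
            exact hmap ⟨b, hb, rfl⟩
        · rw [hw2 hek, mul_zero]
          exact Submodule.zero_mem _

lemma partA_step {r : ℕ} {f : Fin r → ExteriorAlgebra K V} {d : Fin r → ℕ}
    (hf : ∀ i, f i ∈ ⋀[K]^(d i) V) {g : ExteriorAlgebra K V} {e : ℕ} (he : 1 ≤ e)
    (hg : g ∈ ⋀[K]^e V) (q : ℕ) (hq : q = 0 ∨ g ^ q = 0) :
    CLe (Hs (R f)) (Hs (R (Fin.snoc f g : Fin (r + 1) → ExteriorAlgebra K V)) * G q e) := by
  classical
  intro k
  choose P hP1 hP2 hP3 using fun k =>
    exists_compl (R (Fin.snoc f g : Fin (r + 1) → ExteriorAlgebra K V)) (⋀[K]^k V)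
  have h1 := qdim_le_sum _ _ (partA_span hf he hg P hP3 k)
  rw [Hs, coeff_mk, coeff_mul]
  refine (Int.ofNat_le.mpr h1).trans ?_
  rw [Nat.cast_sum, Finset.sum_filter]
  apply Finset.sum_le_sum
  rintro ⟨i, j⟩ hij
  simp only [Hs, G, coeff_mk]
  by_cases h : e ∣ j
  · by_cases h2 : q = 0 ∨ j / e < q
    · rw [if_pos h, if_pos ⟨h, h2⟩, mul_one, ← hP2]
      exact_mod_cast Submodule.finrank_map_le _ _
    · rw [if_pos h, if_neg (fun h3 => h2 h3.2), mul_zero]
      push Not at h2
      have h0 : g ^ (j / e) = 0 := by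
        obtain ⟨c, hc⟩ := Nat.exists_eq_add_of_le h2.2
        rw [hc, pow_add, hq.resolve_left h2.1, zero_mul]
      rw [h0, LinearMap.mulLeft_zero_eq_zero, Submodule.map_zero]
      simp
  · rw [if_neg h, if_neg (fun h3 => h h3.1), mul_zero]

lemma Hs_bot_zero (f : Fin 0 → ExteriorAlgebra K V) :
    Hs (R f) = (1 + X : ℤ⟦X⟧) ^ (Module.finrank K V) := by
  have h1 : R f = ⊥ := by
    rw [eq_bot_iff]
    intro x hx
    rw [mem_R] at hx
    obtain ⟨z, rfl⟩ := hx
    simp
  ext k
  rw [h1, Hs, coeff_mk, qdim_bot, exteriorPower.finrank_eq]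
  have : (1 + X : ℤ⟦X⟧) ^ (Module.finrank K V) =
      (((1 + Polynomial.X : Polynomial ℤ) ^ (Module.finrank K V) : Polynomial ℤ) : ℤ⟦X⟧) := by
    simp
  rw [this, Polynomial.coeff_coe, Polynomial.coeff_one_add_X_pow]

/-- Part A -/
theorem partA {r : ℕ} (f : Fin r → ExteriorAlgebra K V) (d : Fin r → ℕ) (q : Fin r → ℕ)
    (hd : ∀ i, 1 ≤ d i) (hf : ∀ i, f i ∈ ⋀[K]^(d i) V) (hq : ∀ i, q i = 0 ∨ f i ^ q i = 0) :
    CLe ((1 + X : ℤ⟦X⟧) ^ (Module.finrank K V)) (Hs (R f) * ∏ i, G (q i) (d i)) := by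
  induction r with
  | zero =>
    rw [Hs_bot_zero]
    intro k
    simp
  | succ r ih =>
    have h1 := ih (Fin.init f) (Fin.init d) (Fin.init q) (fun i => hd _) (fun i => hf _)
      (fun i => hq _)
    have h2 := partA_step (f := Fin.init f) (d := Fin.init d) (fun i => hf _)
      (hd (Fin.last r)) (hf (Fin.last r)) (q (Fin.last r)) (hq (Fin.last r))
    rw [Fin.snoc_init_self] at h2
    have h3 : CLe 0 (∏ i : Fin r, G (Fin.init q i) (Fin.init d i)) := by
      have : ∀ s : Finset (Fin r), CLe 0 (∏ i ∈ s, G (Fin.init q i) (Fin.init d i)) := by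
        intro s
        classical
        induction s using Finset.induction_on with
        | empty =>
          intro k
          rw [Finset.prod_empty, map_zero, coeff_one]
          split_ifs <;> simp
        | insert a s ha ih =>
          rw [Finset.prod_insert ha]
          exact CLe_zero_mul (G_nonneg _ _) ih
      exact this _
    refine h1.trans ((h2.mul_right h3).trans ?_)
    intro k
    rw [Fin.prod_univ_castSucc, mul_assoc, mul_comm (G _ _)]
    exact le_rfl

end Pool.Agent.Work.MP_2bf34e_al
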