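import Pool.Agent.Work.MP_2bf34e_al.Block

set_option autoImplicit false

namespace Pool.Agent.Work.MP_2bf34e_al

open ExteriorAlgebra PowerSeries

/-- `1 / (1 - t^(q e))` (or `1` for `q = 0`) -/
noncomputable def U (q e : ℕ) : ℤ⟦X⟧ :=
  if q = 0 then 1 else PowerSeries.invOfUnit (1 - X ^ (q * e)) 1

lemma U_mul (q e : ℕ) (hq : q ≠ 0) (he : 1 ≤ e) : (1 - X ^ (q * e) : ℤ⟦X⟧) * U q e = 1 := by
  rw [U, if_neg hq]
  apply PowerSeries.mul_invOfUnit
  rw [map_sub, map_one, map_pow, constantCoeff_X, zero_pow (by positivity), sub_zero, Units.val_one]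

lemma U_expand (q d s : ℕ) (hd : 1 ≤ d) (hs : q = 0 ∨ s < q) :
    ∃ Z : ℤ⟦X⟧, (1 - X ^ (d * s)) * U q d = 1 + X ^ (d * s) * Z := by
  by_cases hq : q = 0
  · refine ⟨-1, ?_⟩
    rw [U, if_pos hq]; ring
  · have h := U_mul q d hq hd
    have hs' : s < q := hs.resolve_left hq
    obtain ⟨c, hc⟩ := Nat.exists_eq_add_of_lt hs'
    refine ⟨X ^ (d * (c + 1)) * U q d - U q d, ?_⟩
    have e : q * d = d * s + d * (c + 1) := by rw [hc]; ring
    rw [e, pow_add] at h
    linear_combination h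

/-- the bounding series -/
noncomputable def Fs (φ : ℤ⟦X⟧) (q d N s : ℕ) : ℤ⟦X⟧ :=
  φ * (1 + X) ^ (d * N) * ((1 - X ^ (d * s)) * U q d)

lemma sum_card (d : ℕ) : ∑ C : Finset (Fin d), (X : ℤ⟦X⟧) ^ C.card = (1 + X) ^ d := by
  have := Fintype.sum_pow_mul_eq_add_pow (Fin d) (X : ℤ⟦X⟧) 1
  simp only [one_pow, mul_one, Fintype.card_fin] at this
  rw [this, add_comm]

lemma coeff_sum_card (d D : ℕ) (h : Finset (Fin d) → ℤ⟦X⟧) :
    ∑ C ∈ (Finset.univ : Finset (Finset (Fin d))).filter (fun C => C.card ≤ D),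
      coeff (D - C.card) (h C) = coeff D (∑ C : Finset (Fin d), X ^ C.card * h C) := by
  rw [map_sum, Finset.sum_filter]
  apply Finset.sum_congr rfl
  intro C _
  rw [coeff_X_pow_mul']

lemma Fs_rec (φ : ℤ⟦X⟧) (q d N s : ℕ) (hd : 1 ≤ d) (hs : 1 ≤ s) :
    ∑ C : Finset (Fin d), X ^ C.card *
      Fs φ q d N (if C = ∅ then s + 1 else if C = Finset.univ then s - 1 else s)
      = Fs φ q d (N + 1) s := by
  classical
  have hne : (∅ : Finset (Fin d)) ≠ Finset.univ := by
    intro h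
    have : (⟨0, hd⟩ : Fin d) ∈ (∅ : Finset (Fin d)) := by rw [h]; exact Finset.mem_univ _
    simp at this
  have h1 : ∀ C : Finset (Fin d), X ^ C.card *
      Fs φ q d N (if C = ∅ then s + 1 else if C = Finset.univ then s - 1 else s) =
      X ^ C.card * Fs φ q d N s +
      (if C = ∅ then Fs φ q d N (s + 1) - Fs φ q d N s else 0) +
      (if C = Finset.univ then X ^ d * (Fs φ q d N (s - 1) - Fs φ q d N s) else 0) := by
    intro C
    by_cases hC : C = ∅
    · subst hC
      rw [if_pos rfl, if_pos rfl, if_neg hne, Finset.card_empty]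
      ring
    · by_cases hC2 : C = Finset.univ
      · subst hC2
        rw [if_neg hC, if_pos rfl, if_neg hC, if_pos rfl, Finset.card_univ, Fintype.card_fin]
        ring
      · rw [if_neg hC, if_neg hC2, if_neg hC, if_neg hC2]
        ring
  rw [Finset.sum_congr rfl (fun C _ => h1 C), Finset.sum_add_distrib, Finset.sum_add_distrib,
    ← Finset.sum_mul, sum_card, Finset.sum_ite_eq', Finset.sum_ite_eq',
    if_pos (Finset.mem_univ _), if_pos (Finset.mem_univ _)]
  obtain ⟨t, rfl⟩ := Nat.exists_eq_add_of_le hs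
  simp only [Nat.add_sub_cancel_left, Fs]
  ring

section ext

variable (K : Type*) [Field K]

/-- extension by zero -/
def ext0 (n d : ℕ) : (Fin n → K) →ₗ[K] (Fin (n + d) → K) where
  toFun v := Fin.append v 0
  map_add' v w := by
    ext i
    refine Fin.addCases (fun i => ?_) (fun i => ?_) i <;> simp
  map_smul' c v := by
    ext i
    refine Fin.addCases (fun i => ?_) (fun i => ?_) i <;> simp

/-- new basis vectors -/
def newv (n d : ℕ) (i : Fin d) : Fin (n + d) → K := Pi.single (Fin.natAdd n i) 1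

lemma ext0_span (n d : ℕ) :
    LinearMap.range (ext0 K n d) ⊔ Submodule.span K (Set.range (newv K n d)) = ⊤ := by
  rw [eq_top_iff]
  intro w _
  have h : w = ext0 K n d (fun i => w (Fin.castAdd d i)) +
      ∑ i : Fin d, w (Fin.natAdd n i) • newv K n d i := by
    ext i
    refine Fin.addCases (fun i => ?_) (fun i => ?_) i
    · rw [Pi.add_apply, Finset.sum_apply, Finset.sum_eq_zero]
      · simp [ext0]
      · intro a _
        rw [Pi.smul_apply, newv, Pi.single_eq_of_ne, smul_zero]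
        intro h
        have := congrArg Fin.val h
        simp at this
        omega
    · rw [Pi.add_apply, Finset.sum_apply, Finset.sum_eq_single i]
      · simp [ext0, newv]
      · intro a _ ha
        rw [Pi.smul_apply, newv, Pi.single_eq_of_ne, smul_zero]
        intro h
        have := congrArg Fin.val h
        simp at this
        exact ha (Fin.ext this.symm)
      · simp
  rw [h]
  apply Submodule.add_mem_sup
  · exact ⟨_, rfl⟩
  · exact Submodule.sum_mem _ fun i _ => Submodule.smul_mem _ _ (Submodule.subset_span ⟨i, rfl⟩)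

end ext

/-- induction predicate -/
def Good (K : Type*) [Field K] (n r : ℕ) (δ : Fin r → ℕ) (d q k N : ℕ) (φ : ℤ⟦X⟧) : Prop :=
  ∃ f : Fin r → ExteriorAlgebra K (Fin n → K), ∃ g : ExteriorAlgebra K (Fin n → K),
    (∀ i, f i ∈ ⋀[K]^(δ i) (Fin n → K)) ∧ g ∈ ⋀[K]^d (Fin n → K) ∧
    (∀ D, D ≤ k → (qdim (R f) (⋀[K]^D (Fin n → K)) : ℤ) ≤ coeff D (φ * (1 + X) ^ (d * N))) ∧
    (∀ s, 1 ≤ s → (q = 0 ∨ s < q) → ∀ D, D ≤ k → 2 * D ≤ N + (2 * d - 1) * s →
      (qdim (R (Fin.snoc f (g ^ s) : Fin (r + 1) → ExteriorAlgebra K (Fin n → K)))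
        (⋀[K]^D (Fin n → K)) : ℤ) ≤ coeff D (Fs φ q d N s))

lemma good_zero (K : Type*) [Field K] (n r : ℕ) (δ : Fin r → ℕ) (d q k : ℕ) (hd : 1 ≤ d)
    (φ : ℤ⟦X⟧) (f : Fin r → ExteriorAlgebra K (Fin n → K))
    (hf : ∀ i, f i ∈ ⋀[K]^(δ i) (Fin n → K))
    (hb : ∀ D, D ≤ k → (qdim (R f) (⋀[K]^D (Fin n → K)) : ℤ) ≤ coeff D φ) :
    Good K n r δ d q k 0 φ := by
  refine ⟨f, 0, hf, Submodule.zero_mem _, ?_, ?_⟩
  · intro D hD
    simpa using hb D hD
  · intro s hs hq D hD h2
    obtain ⟨Z, hZ⟩ := U_expand q d s hd hq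
    have hlt : D < d * s := by
      obtain ⟨c, rfl⟩ := Nat.exists_eq_add_of_le hd
      have : (2 * (1 + c) - 1) * s = 2 * ((1 + c) * s) - s := by
        rw [Nat.sub_mul]
        ring_nf
      rw [this] at h2
      have h3 : 0 < (1 + c) * s := by positivity
      omega
    have hco : coeff D (Fs φ q d 0 s) = coeff D φ := by
      have : Fs φ q d 0 s = φ + X ^ (d * s) * (φ * Z) := by
        rw [Fs, hZ]; ring
      rw [this, map_add, coeff_X_pow_mul', if_neg (by omega), add_zero]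
    rw [hco]
    refine le_trans ?_ (hb D hD)
    exact_mod_cast qdim_anti (R_le_snoc _ _)

lemma good_succ (K : Type*) [Field K] (n r : ℕ) (δ : Fin r → ℕ) (d q k N : ℕ) (hd : 1 ≤ d)
    (hq : ∀ s, 1 ≤ s → (q = 0 ∨ s < q) → ((Even d ∧ (s : K) ≠ 0) ∨ (Odd d ∧ s = 1)))
    (φ : ℤ⟦X⟧) (h : Good K n r δ d q k N φ) : Good K (n + d) r δ d q k (N + 1) φ := by
  classical
  obtain ⟨f, g, hf, hg, hA, hB⟩ := h
  have hne : (∅ : Finset (Fin d)) ≠ Finset.univ := by
    intro h
    have : (⟨0, hd⟩ : Fin d) ∈ (∅ : Finset (Fin d)) := by rw [h]; exact Finset.mem_univ _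
    simp at this
  refine ⟨fun i => ExteriorAlgebra.map (ext0 K n d) (f i), gen (ext0 K n d) (newv K n d) g,
    fun i => map_mem _ (hf i), gen_mem _ _ g hg, ?_, ?_⟩
  · intro D hD
    have h1 := simple_step (ext0 K n d) hd (newv K n d) (ext0_span K n d) f D
    refine (Int.ofNat_le.mpr h1).trans ?_
    rw [Nat.cast_sum]
    have h2 : ∑ C ∈ (Finset.univ : Finset (Finset (Fin d))).filter (fun C => C.card ≤ D),
        (qdim (R f) (⋀[K]^(D - C.card) (Fin n → K)) : ℤ) ≤
        ∑ C ∈ (Finset.univ : Finset (Finset (Fin d))).filter (fun C => C.card ≤ D),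
          coeff (D - C.card) (φ * (1 + X) ^ (d * N)) := by
      apply Finset.sum_le_sum
      intro C _
      exact hA _ (by omega)
    refine h2.trans (le_of_eq ?_)
    rw [coeff_sum_card d D (fun _ => φ * (1 + X) ^ (d * N)), ← Finset.sum_mul, sum_card]
    congr 1
    ring
  · intro s hs hsq D hD h2D
    have h1 := block_step (ext0 K n d) hd (newv K n d) (ext0_span K n d) f δ hf g hg s hs
      (hq s hs hsq) D
    refine (Int.ofNat_le.mpr h1).trans ?_
    rw [Nat.cast_sum, ← Fs_rec φ q d N s hd hs, ← coeff_sum_card]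
    apply Finset.sum_le_sum
    intro C hC
    simp only [Finset.mem_filter, Finset.mem_univ, true_and] at hC
    by_cases hC0 : C = ∅
    · subst hC0
      rw [if_pos rfl, Finset.card_empty, Nat.sub_zero]
      by_cases hq1 : s + 1 = q
      · have hq0 : q ≠ 0 := by omega
        have e1 : Fs φ q d N (s + 1) = φ * (1 + X) ^ (d * N) := by
          rw [Fs, hq1, mul_comm d q, U_mul q d hq0 hd, mul_one]
        rw [e1]
        refine le_trans ?_ (hA D hD)
        exact_mod_cast qdim_anti (R_le_snoc _ _)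
      · apply hB (s + 1) (by omega) (by omega) D hD
        have : (2 * d - 1) * (s + 1) = (2 * d - 1) * s + (2 * d - 1) := by ring
        omega
    · rw [if_neg hC0]
      by_cases hC1 : C = Finset.univ
      · subst hC1
        rw [if_pos rfl]
        rw [Finset.card_univ, Fintype.card_fin] at hC ⊢
        by_cases hs1 : s = 1
        · subst hs1
          have e1 : qdim (R (Fin.snoc f (g ^ (1 - 1)) :
              Fin (r + 1) → ExteriorAlgebra K (Fin n → K))) (⋀[K]^(D - d) (Fin n → K)) = 0 := by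
            apply qdim_eq_zero_of_le
            intro x _
            rw [mem_R_snoc]
            exact ⟨0, Submodule.zero_mem _, x, by simp⟩
          rw [e1]
          simp [Fs]
        · apply hB (s - 1) (by omega) (by omega) (D - d) (by omega)
          obtain ⟨t, rfl⟩ := Nat.exists_eq_add_of_le hs
          rw [Nat.add_sub_cancel_left]
          have : (2 * d - 1) * (1 + t) = (2 * d - 1) + (2 * d - 1) * t := by ring
          rw [this] at h2D
          omega
      · rw [if_neg hC1]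
        apply hB s hs hsq _ (by omega)
        have : 0 < C.card := Finset.card_pos.mpr (Finset.nonempty_iff_ne_empty.mpr hC0)
        omega

lemma good_all (K : Type*) [Field K] (n r : ℕ) (δ : Fin r → ℕ) (d q k : ℕ) (hd : 1 ≤ d)
    (hq : ∀ s, 1 ≤ s → (q = 0 ∨ s < q) → ((Even d ∧ (s : K) ≠ 0) ∨ (Odd d ∧ s = 1)))
    (φ : ℤ⟦X⟧) (h : Good K n r δ d q k 0 φ) (N : ℕ) : Good K (n + d * N) r δ d q k N φ := by
  induction N with
  | zero => exact h
  | succ N ih =>
    have := good_succ K _ r δ d q k N hd hq φ ih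
    rwa [show n + d * (N + 1) = n + d * N + d by ring]

/-- Part B -/
theorem partB (K : Type*) [Field K] (k : ℕ) (r : ℕ) (δ q : Fin r → ℕ) (hδ : ∀ i, 1 ≤ δ i)
    (hq1 : ∀ i, q i ≠ 1)
    (hq : ∀ i s, 1 ≤ s → (q i = 0 ∨ s < q i) →
      ((Even (δ i) ∧ (s : K) ≠ 0) ∨ (Odd (δ i) ∧ s = 1))) :
    ∃ N : ℕ, ∀ n, N ≤ n → ∃ F : Fin r → ExteriorAlgebra K (Fin n → K),
      (∀ i, F i ∈ ⋀[K]^(δ i) (Fin n → K)) ∧
      ∀ D, D ≤ k → (qdim (R F) (⋀[K]^D (Fin n → K)) : ℤ) ≤
        coeff D ((1 + X) ^ n * ∏ i, ((1 - X ^ (δ i)) * U (q i) (δ i))) := by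
  induction r with
  | zero =>
    refine ⟨0, fun n _ => ⟨Fin.elim0, fun i => i.elim0, fun D _ => ?_⟩⟩
    have := Hs_bot_zero (K := K) (V := Fin n → K) Fin.elim0
    rw [Finset.univ_eq_empty, Finset.prod_empty, mul_one]
    rw [Module.finrank_fin_fun] at this
    rw [← this, Hs, coeff_mk]
  | succ r ih =>
    obtain ⟨N, hN⟩ := ih (Fin.init δ) (Fin.init q) (fun i => hδ _) (fun i => hq1 _)
      (fun i => hq _)
    set d := δ (Fin.last r) with hd
    refine ⟨N + d * (2 * k), fun n hn => ?_⟩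
    obtain ⟨c, hc⟩ := Nat.exists_eq_add_of_le hn
    obtain ⟨f, hf, hfb⟩ := hN (N + c) (by omega)
    have h0 := good_zero K (N + c) r (Fin.init δ) d (q (Fin.last r)) k (hδ _) _ f hf hfb
    obtain ⟨f', g, hf', hg, hA, hB⟩ := good_all K _ r _ d _ k (hδ _) (hq (Fin.last r)) _ h0 (2 * k)
    have hn' : n = N + c + d * (2 * k) := by omega
    subst hn'
    refine ⟨Fin.snoc f' g, ?_, ?_⟩
    · intro i
      refine Fin.lastCases ?_ (fun i => ?_) i
      · simpa using hg
      · rw [Fin.snoc_castSucc]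
        exact hf' i
    · intro D hD
      have h1 := hB 1 le_rfl (by have := hq1 (Fin.last r); omega) D hD (by omega)
      rw [pow_one] at h1
      refine h1.trans (le_of_eq ?_)
      congr 1
      rw [Fs, Fin.prod_univ_castSucc, mul_one, pow_add]
      simp only [Fin.init]
      ring

end Pool.Agent.Work.MP_2bf34e_al
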