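import Mathlib

set_option autoImplicit false

namespace Pool.Agent.Work.MP_2bf34e_al

variable {K E : Type*} [Field K] [AddCommGroup E] [Module K E]

/-- dimension of the image of `S` in `E / J` -/
noncomputable def qdim (J S : Submodule K E) : ℕ := Module.finrank K (S.map J.mkQ)

lemma exists_compl (J S : Submodule K E) :
    ∃ P ≤ S, Module.finrank K P = qdim J S ∧ S ≤ P ⊔ (J ⊓ S) := by
  obtain ⟨P₀, hP₀⟩ := Submodule.exists_isCompl (J ⊓ S)
  have h1 : (P₀ ⊓ S) ⊔ (J ⊓ S) = S := by
    rw [sup_comm, ← sup_inf_assoc_of_le P₀ (inf_le_right : J ⊓ S ≤ S), hP₀.sup_eq_top, top_inf_eq]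
  have hd : ∀ x ∈ P₀ ⊓ S, x ∈ J → x = 0 := by
    intro x hx hxJ
    have : x ∈ (J ⊓ S) ⊓ P₀ := ⟨⟨hxJ, hx.2⟩, hx.1⟩
    rw [hP₀.inf_eq_bot] at this
    simpa using this
  refine ⟨P₀ ⊓ S, inf_le_right, ?_, le_of_eq h1.symm⟩
  have h2 : S.map J.mkQ = (P₀ ⊓ S).map J.mkQ := by
    conv_lhs => rw [← h1, Submodule.map_sup]
    have : (J ⊓ S).map J.mkQ = ⊥ := by
      rw [eq_bot_iff]
      rintro _ ⟨x, hx, rfl⟩
      simp only [Submodule.mkQ_apply, Submodule.mem_bot]
      rw [Submodule.Quotient.mk_eq_zero]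
      exact hx.1
    rw [this, sup_bot_eq]
  rw [qdim, h2]
  have hinj : Function.Injective (J.mkQ.domRestrict (P₀ ⊓ S)) := by
    rw [← LinearMap.ker_eq_bot, LinearMap.ker_eq_bot']
    rintro ⟨x, hx⟩ h
    simp only [LinearMap.domRestrict_apply, Submodule.mkQ_apply] at h
    rw [Submodule.Quotient.mk_eq_zero] at h
    exact Subtype.ext (hd x hx h)
  have := LinearMap.finrank_range_of_inj hinj
  rw [LinearMap.range_domRestrict] at this
  exact this.symm

variable [FiniteDimensional K E]

lemma finrank_sup_le (A B : Submodule K E) :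
    Module.finrank K (A ⊔ B : Submodule K E) ≤ Module.finrank K A + Module.finrank K B := by
  have := Submodule.finrank_sup_add_finrank_inf_eq A B
  omega

lemma finrank_iSup_le {ι : Type*} (s : Finset ι) (T : ι → Submodule K E) :
    Module.finrank K (⨆ i ∈ s, T i : Submodule K E) ≤ ∑ i ∈ s, Module.finrank K (T i) := by
  classical
  induction s using Finset.induction_on with
  | empty => simp
  | insert a s ha ih =>
    rw [Finset.sum_insert ha, Finset.iSup_insert]
    exact (finrank_sup_le _ _).trans (Nat.add_le_add_left ih _)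

lemma qdim_le_of_le {J S T : Submodule K E} (h : S ≤ J ⊔ T) :
    qdim J S ≤ Module.finrank K T := by
  have h1 : S.map J.mkQ ≤ T.map J.mkQ := by
    refine (Submodule.map_mono h).trans ?_
    rw [Submodule.map_sup, Submodule.mkQ_map_self, bot_sup_eq]
  exact (Submodule.finrank_mono h1).trans (Submodule.finrank_map_le _ _)

lemma qdim_le_sum {ι : Type*} (s : Finset ι) (T : ι → Submodule K E) {J S : Submodule K E}
    (h : S ≤ J ⊔ ⨆ i ∈ s, T i) : qdim J S ≤ ∑ i ∈ s, Module.finrank K (T i) :=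
  (qdim_le_of_le h).trans (finrank_iSup_le s T)

lemma qdim_anti {J J' S : Submodule K E} (h : J ≤ J') : qdim J' S ≤ qdim J S := by
  obtain ⟨P, _, hP2, hP3⟩ := exists_compl J S
  rw [← hP2]
  apply qdim_le_of_le
  refine hP3.trans (sup_le le_sup_right ?_)
  exact (inf_le_left.trans h).trans le_sup_left

lemma qdim_eq_zero_of_le {J S : Submodule K E} (h : S ≤ J) : qdim J S = 0 := by
  have := qdim_le_of_le (J := J) (S := S) (T := ⊥) (by simpa using h)
  simpa using this

lemma qdim_le_finrank (J S : Submodule K E) : qdim J S ≤ Module.finrank K S :=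
  qdim_le_of_le le_sup_right

lemma qdim_bot (S : Submodule K E) : qdim ⊥ S = Module.finrank K S := by
  obtain ⟨P, hP1, hP2, hP3⟩ := exists_compl ⊥ S
  apply le_antisymm (qdim_le_finrank _ _)
  rw [← hP2]
  apply Submodule.finrank_mono
  simpa using hP3

end Pool.Agent.Work.MP_2bf34e_al
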