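import Pool.Agent.Work.MP_2bf34e_al.Basic
import Pool.Agent.Work.MP_2bf34e_al.QDim

set_option autoImplicit false

namespace Pool.Agent.Work.MP_2bf34e_al

open ExteriorAlgebra

variable {K V V' : Type*} [Field K] [AddCommGroup V] [Module K V] [AddCommGroup V'] [Module K V']

instance finDimExt [FiniteDimensional K V] : FiniteDimensional K (ExteriorAlgebra K V) := by
  classical
  let b := Module.finBasis K V
  exact Module.Finite.of_basis b.ExteriorAlgebra

/-- the map `z ↦ ∑ f_i z_i` -/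
noncomputable def Phi {r : ℕ} (f : Fin r → ExteriorAlgebra K V) :
    (Fin r → ExteriorAlgebra K V) →ₗ[K] ExteriorAlgebra K V :=
  ∑ i, (LinearMap.mulLeft K (f i)) ∘ₗ (LinearMap.proj i)

lemma Phi_apply {r : ℕ} (f z : Fin r → ExteriorAlgebra K V) : Phi f z = ∑ i, f i * z i := by
  simp [Phi, LinearMap.sum_apply]

/-- the right ideal generated by a family, as a `K`-subspace -/
noncomputable def R {r : ℕ} (f : Fin r → ExteriorAlgebra K V) :
    Submodule K (ExteriorAlgebra K V) := LinearMap.range (Phi f)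

lemma mem_R {r : ℕ} {f : Fin r → ExteriorAlgebra K V} {x : ExteriorAlgebra K V} :
    x ∈ R f ↔ ∃ z : Fin r → ExteriorAlgebra K V, x = ∑ i, f i * z i := by
  constructor
  · rintro ⟨z, rfl⟩
    exact ⟨z, Phi_apply f z⟩
  · rintro ⟨z, rfl⟩
    exact ⟨z, Phi_apply f z⟩

lemma R_mul_right {r : ℕ} {f : Fin r → ExteriorAlgebra K V} {x : ExteriorAlgebra K V}
    (hx : x ∈ R f) (y : ExteriorAlgebra K V) : x * y ∈ R f := by
  rw [mem_R] at hx ⊢
  obtain ⟨z, rfl⟩ := hx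
  exact ⟨fun i => z i * y, by rw [Finset.sum_mul]; simp only [mul_assoc]⟩

lemma R_mul_left {r : ℕ} {f : Fin r → ExteriorAlgebra K V} {d : Fin r → ℕ}
    (hf : ∀ i, f i ∈ ⋀[K]^(d i) V) {x : ExteriorAlgebra K V}
    (hx : x ∈ R f) (y : ExteriorAlgebra K V) : y * x ∈ R f := by
  rw [mem_R] at hx ⊢
  obtain ⟨z, rfl⟩ := hx
  choose y' hy' using fun i => exists_mul_comm (hf i) y
  refine ⟨fun i => y' i * z i, ?_⟩
  rw [Finset.mul_sum]
  apply Finset.sum_congr rfl
  intro i _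
  rw [← mul_assoc, hy', mul_assoc]

lemma f_mem_R {r : ℕ} (f : Fin r → ExteriorAlgebra K V) (i : Fin r) : f i ∈ R f := by
  rw [mem_R]
  refine ⟨Pi.single i 1, ?_⟩
  rw [Finset.sum_eq_single i]
  · simp
  · intro j _ hj
    simp [Pi.single_eq_of_ne hj]
  · simp

/-- homogeneous elements of `R f` -/
lemma R_homog {r : ℕ} {f : Fin r → ExteriorAlgebra K V} {d : Fin r → ℕ}
    (hf : ∀ i, f i ∈ ⋀[K]^(d i) V) {k : ℕ} {x : ExteriorAlgebra K V}
    (hx : x ∈ R f) (hk : x ∈ ⋀[K]^k V) :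
    ∃ z : Fin r → ExteriorAlgebra K V, x = ∑ i, f i * z i ∧
      (∀ i, d i ≤ k → z i ∈ ⋀[K]^(k - d i) V) ∧ (∀ i, ¬ d i ≤ k → z i = 0) := by
  classical
  rw [mem_R] at hx
  obtain ⟨z, hz⟩ := hx
  let z' : Fin r → ExteriorAlgebra K V := fun i =>
    if d i ≤ k then (DirectSum.decompose (fun i : ℕ => ⋀[K]^i V) (z i) (k - d i) :
      ExteriorAlgebra K V) else 0
  refine ⟨z', ?_, ?_, ?_⟩
  · have h1 : (DirectSum.decompose (fun i : ℕ => ⋀[K]^i V) x k : ExteriorAlgebra K V) = x :=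
      DirectSum.decompose_of_mem_same _ hk
    rw [← h1, hz, DirectSum.decompose_sum, DFinsupp.finsetSum_apply]
    rw [AddSubmonoidClass.coe_finsetSum]
    apply Finset.sum_congr rfl
    intro i _
    simp only [z']
    rw [DirectSum.coe_decompose_mul_of_left_mem (fun i : ℕ => ⋀[K]^i V) k (hf i)]
    split_ifs <;> simp
  · intro i hi
    simp only [z', if_pos hi]
    exact SetLike.coe_mem _
  · intro i hi
    simp only [z', if_neg hi]

lemma mem_R_snoc {r : ℕ} {f : Fin r → ExteriorAlgebra K V} {g x : ExteriorAlgebra K V} :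
    x ∈ R (Fin.snoc f g : Fin (r + 1) → ExteriorAlgebra K V) ↔
      ∃ u ∈ R f, ∃ w, x = u + g * w := by
  constructor
  · intro hx
    rw [mem_R] at hx
    obtain ⟨z, rfl⟩ := hx
    rw [Fin.sum_univ_castSucc]
    simp only [Fin.snoc_castSucc, Fin.snoc_last]
    exact ⟨_, mem_R.mpr ⟨fun i => z i.castSucc, rfl⟩, _, rfl⟩
  · rintro ⟨u, hu, w, rfl⟩
    rw [mem_R] at hu ⊢
    obtain ⟨z, rfl⟩ := hu
    refine ⟨Fin.snoc z w, ?_⟩
    rw [Fin.sum_univ_castSucc]
    simp only [Fin.snoc_castSucc, Fin.snoc_last]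

lemma R_le_snoc {r : ℕ} (f : Fin r → ExteriorAlgebra K V) (g : ExteriorAlgebra K V) :
    R f ≤ R (Fin.snoc f g : Fin (r + 1) → ExteriorAlgebra K V) := by
  intro x hx
  exact mem_R_snoc.mpr ⟨x, hx, 0, by simp⟩

lemma mem_R_snoc_homog {r : ℕ} {f : Fin r → ExteriorAlgebra K V} {g x : ExteriorAlgebra K V}
    {d : Fin r → ℕ} (hf : ∀ i, f i ∈ ⋀[K]^(d i) V) {e : ℕ} (hg : g ∈ ⋀[K]^e V) {k : ℕ}
    (hk : x ∈ ⋀[K]^k V) (hx : x ∈ R (Fin.snoc f g : Fin (r + 1) → ExteriorAlgebra K V)) :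
      ∃ u ∈ R f, ∃ w, x = u + g * w ∧ (e ≤ k → w ∈ ⋀[K]^(k - e) V) ∧ (¬ e ≤ k → w = 0) := by
  have hfg : ∀ i, (Fin.snoc f g : Fin (r + 1) → ExteriorAlgebra K V) i ∈
      ⋀[K]^((Fin.snoc d e : Fin (r + 1) → ℕ) i) V := by
    intro i
    refine Fin.lastCases ?_ (fun i => ?_) i
    · simpa using hg
    · simpa using hf i
  obtain ⟨z, hz, hz1, hz2⟩ := R_homog hfg hx hk
  rw [Fin.sum_univ_castSucc] at hz
  simp only [Fin.snoc_castSucc, Fin.snoc_last] at hz
  refine ⟨_, mem_R.mpr ⟨fun i => z i.castSucc, rfl⟩, z (Fin.last r), hz, ?_, ?_⟩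
  · have := hz1 (Fin.last r)
    simpa using this
  · have := hz2 (Fin.last r)
    simpa using this

/-- the two-sided ideal generated by homogeneous elements -/
lemma span_eq_R {r : ℕ} {f : Fin r → ExteriorAlgebra K V} {d : Fin r → ℕ}
    (hf : ∀ i, f i ∈ ⋀[K]^(d i) V) (x : ExteriorAlgebra K V) :
    x ∈ TwoSidedIdeal.span (Set.range f) ↔ x ∈ R f := by
  constructor
  · intro hx
    let J : TwoSidedIdeal (ExteriorAlgebra K V) := TwoSidedIdeal.mk' (R f : Set _)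
      (R f).zero_mem (fun hx hy => (R f).add_mem hx hy) (fun hx => (R f).neg_mem hx)
      (fun {x y} hy => R_mul_left hf hy x) (fun {x y} hx => R_mul_right hx y)
    have : TwoSidedIdeal.span (Set.range f) ≤ J := by
      rw [TwoSidedIdeal.span_le]
      rintro _ ⟨i, rfl⟩
      have := f_mem_R f i
      simpa [J] using this
    have h2 := this hx
    simpa [J] using h2
  · intro hx
    rw [mem_R] at hx
    obtain ⟨z, rfl⟩ := hx
    apply sum_mem
    intro i _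
    apply TwoSidedIdeal.mul_mem_right
    exact TwoSidedIdeal.subset_span ⟨i, rfl⟩

end Pool.Agent.Work.MP_2bf34e_al
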