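import Pool.Agent.Work.MP_2bf34e_al.PartA

set_option autoImplicit false

namespace Pool.Agent.Work.MP_2bf34e_al

open ExteriorAlgebra

variable {K V V' : Type*} [Field K] [AddCommGroup V] [Module K V] [AddCommGroup V'] [Module K V']

/-- the product of the `y_i`, `i ∈ C`, in increasing order -/
noncomputable def yC (K : Type*) {V' : Type*} [Field K] [AddCommGroup V'] [Module K V'] {d : ℕ}
    (y : Fin d → V') (C : Finset (Fin d)) : ExteriorAlgebra K V' :=
  ιMulti_family K C.card y (Set.powersetCard.ofCard (rfl : C.card = C.card))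

lemma family_eq_yC {d n : ℕ} (y : Fin d → V') (s : Set.powersetCard (Fin d) n) :
    ιMulti_family K n y s = yC K y s.val := by
  obtain ⟨s, hs⟩ := s
  have hs' : s.card = n := hs
  subst hs'
  rfl

lemma yC_mem {d : ℕ} (y : Fin d → V') (C : Finset (Fin d)) : yC K y C ∈ ⋀[K]^C.card V' :=
  ιMulti_range K _ ⟨_, rfl⟩

lemma yC_empty {d : ℕ} (y : Fin d → V') : yC K y ∅ = 1 := by
  unfold yC
  exact ιMulti_zero_apply _

lemma yC_singleton {d : ℕ} (y : Fin d → V') (i : Fin d) : yC K y {i} = ι K (y i) := by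
  have h := family_eq_yC (K := K) y (Set.powersetCard.ofCard (Finset.card_singleton i))
  rw [Set.powersetCard.val_ofCard] at h
  rw [← h, ιMulti_family, ιMulti_succ_apply, ιMulti_zero_apply, mul_one, Function.comp_apply,
    Set.powersetCard.ofFinEmbEquiv_symm_apply]
  simp

lemma yC_mul_of_not_disjoint {d : ℕ} (y : Fin d → V') {C C' : Finset (Fin d)}
    (h : ¬ Disjoint C C') : yC K y C * yC K y C' = 0 :=
  ιMulti_family_mul_of_not_disjoint K y _ _ h

lemma yC_mul_of_disjoint {d : ℕ} (y : Fin d → V') {C C' : Finset (Fin d)}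
    (h : Disjoint C C') : ∃ ε : ℤˣ, yC K y C * yC K y C' = ε • yC K y (C ∪ C') := by
  have h' : Disjoint (Set.powersetCard.ofCard (rfl : C.card = C.card)).val
    (Set.powersetCard.ofCard (rfl : C'.card = C'.card)).val := h
  have h1 := ιMulti_family_mul_of_disjoint K y
    (Set.powersetCard.ofCard (rfl : C.card = C.card))
    (Set.powersetCard.ofCard (rfl : C'.card = C'.card)) h'
  have h2 := family_eq_yC (K := K) y (Set.powersetCard.disjUnion h')
  rw [h2, Set.powersetCard.coe_disjUnion, Finset.disjUnion_eq_union] at h1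
  exact ⟨_, h1⟩

/-- the map `x ↦ j(x) y_C` -/
noncomputable def LC (j : V →ₗ[K] V') {d : ℕ} (y : Fin d → V') (C : Finset (Fin d)) :
    ExteriorAlgebra K V →ₗ[K] ExteriorAlgebra K V' :=
  (LinearMap.mulRight K (yC K y C)) ∘ₗ (ExteriorAlgebra.map j).toLinearMap

lemma LC_apply (j : V →ₗ[K] V') {d : ℕ} (y : Fin d → V') (C : Finset (Fin d))
    (x : ExteriorAlgebra K V) : LC j y C x = ExteriorAlgebra.map j x * yC K y C := rfl

/-- the span of all products in degree `D` -/
noncomputable def Sp (j : V →ₗ[K] V') {d : ℕ} (y : Fin d → V') (D : ℕ) :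
    Submodule K (ExteriorAlgebra K V') :=
  ⨆ C ∈ (Finset.univ : Finset (Finset (Fin d))).filter (fun C => C.card ≤ D),
    (⋀[K]^(D - C.card) V).map (LC j y C)

lemma mem_Sp (j : V →ₗ[K] V') {d : ℕ} (y : Fin d → V') {D : ℕ} (C : Finset (Fin d))
    (hC : C.card ≤ D) {x : ExteriorAlgebra K V} (hx : x ∈ ⋀[K]^(D - C.card) V) :
    ExteriorAlgebra.map j x * yC K y C ∈ Sp j y D := by
  have : C ∈ (Finset.univ : Finset (Finset (Fin d))).filter (fun C => C.card ≤ D) := by
    simpa using hC
  exact Submodule.mem_iSup_of_mem C (Submodule.mem_iSup_of_mem this ⟨x, hx, rfl⟩)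

lemma Sp_mul_j (j : V →ₗ[K] V') {d : ℕ} (y : Fin d → V') (D : ℕ) (v : V)
    {x : ExteriorAlgebra K V'} (hx : x ∈ Sp j y D) : ι K (j v) * x ∈ Sp j y (D + 1) := by
  have : (Sp j y D).map (LinearMap.mulLeft K (ι K (j v))) ≤ Sp j y (D + 1) := by
    unfold Sp
    rw [Submodule.map_iSup]
    apply iSup_le
    intro C
    rw [Submodule.map_iSup]
    apply iSup_le
    intro hC
    simp only [Finset.mem_filter, Finset.mem_univ, true_and] at hC
    rintro _ ⟨_, ⟨x, hx, rfl⟩, rfl⟩
    rw [LinearMap.mulLeft_apply, LC_apply, ← mul_assoc, ← map_apply_ι, ← map_mul]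
    apply mem_Sp j y C (by omega)
    have := mul_mem_add (ι_mem (K := K) v) hx
    rwa [show 1 + (D - C.card) = D + 1 - C.card by omega] at this
  exact this ⟨x, hx, rfl⟩

lemma Sp_mul_y (j : V →ₗ[K] V') {d : ℕ} (y : Fin d → V') (D : ℕ) (i : Fin d)
    {x : ExteriorAlgebra K V'} (hx : x ∈ Sp j y D) : ι K (y i) * x ∈ Sp j y (D + 1) := by
  have : (Sp j y D).map (LinearMap.mulLeft K (ι K (y i))) ≤ Sp j y (D + 1) := by
    unfold Sp
    rw [Submodule.map_iSup]
    apply iSup_le
    intro C
    rw [Submodule.map_iSup]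
    apply iSup_le
    intro hC
    simp only [Finset.mem_filter, Finset.mem_univ, true_and] at hC
    rintro _ ⟨_, ⟨x, hx, rfl⟩, rfl⟩
    rw [LinearMap.mulLeft_apply, LC_apply, ← mul_assoc, gr_comm (ι_mem (y i)) (map_mem j hx),
      smul_mul_assoc, mul_assoc]
    apply Submodule.smul_mem
    rw [← yC_singleton (K := K) y i]
    by_cases hiC : i ∈ C
    · rw [yC_mul_of_not_disjoint y (by simpa using hiC), mul_zero]
      exact Submodule.zero_mem _
    · obtain ⟨ε, hε⟩ := yC_mul_of_disjoint (K := K) y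
        (C := {i}) (C' := C) (by simpa using hiC)
      have hcard : ({i} ∪ C).card = C.card + 1 := by
        rw [Finset.card_union_of_disjoint (by simpa using hiC), Finset.card_singleton, add_comm]
      rw [hε, mul_smul_comm]
      have := mem_Sp (D := D + 1) j y ({i} ∪ C) (by omega) (x := x)
        (by rwa [hcard, show D + 1 - (C.card + 1) = D - C.card by omega])
      rcases Int.units_eq_one_or ε with h | h
      · rw [h, one_smul]; exact this
      · rw [h, Units.neg_smul, one_smul]; exact Submodule.neg_mem _ this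
  exact this ⟨x, hx, rfl⟩

lemma span_lemma (j : V →ₗ[K] V') {d : ℕ} (y : Fin d → V')
    (hs : LinearMap.range j ⊔ Submodule.span K (Set.range y) = ⊤) (D : ℕ) :
    ⋀[K]^D V' ≤ Sp j y D := by
  induction D with
  | zero =>
    intro x hx
    rw [exteriorPower, pow_zero, Submodule.mem_one] at hx
    obtain ⟨c, rfl⟩ := hx
    have := mem_Sp (D := 0) j y ∅ (by simp) (x := algebraMap K _ c) (by
      rw [exteriorPower, Finset.card_empty, pow_zero]; exact Submodule.algebraMap_mem c)
    rwa [yC_empty, mul_one, AlgHom.commutes] at this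
  | succ D ih =>
    rw [exteriorPower, pow_succ', Submodule.mul_le]
    rintro _ ⟨w, rfl⟩ x hx
    have hx' := ih hx
    have hw : w ∈ LinearMap.range j ⊔ Submodule.span K (Set.range y) := by rw [hs]; trivial
    obtain ⟨_, ⟨v, rfl⟩, u, hu, rfl⟩ := Submodule.mem_sup.mp hw
    rw [map_add, add_mul]
    apply Submodule.add_mem _ (Sp_mul_j j y D v hx')
    induction hu using Submodule.span_induction with
    | mem u hu =>
      obtain ⟨i, rfl⟩ := hu
      exact Sp_mul_y j y D i hx'
    | zero => simp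
    | add a b _ _ iha ihb =>
      rw [map_add, add_mul]
      exact Submodule.add_mem _ (iha (by rw [hs]; trivial)) (ihb (by rw [hs]; trivial))
    | smul c a _ iha =>
      rw [map_smul, smul_mul_assoc]
      exact Submodule.smul_mem _ _ (iha (by rw [hs]; trivial))

/-- general counting lemma -/
lemma count_lemma [FiniteDimensional K V] [FiniteDimensional K V']
    (j : V →ₗ[K] V') {d : ℕ} (hd : 1 ≤ d) (y : Fin d → V')
    (hs : LinearMap.range j ⊔ Submodule.span K (Set.range y) = ⊤) (D : ℕ)
    (J' : Submodule K (ExteriorAlgebra K V'))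
    (J : Finset (Fin d) → Submodule K (ExteriorAlgebra K V))
    (h1 : ∀ C, C ≠ Finset.univ → ∀ x ∈ J C, x ∈ ⋀[K]^(D - C.card) V →
      ExteriorAlgebra.map j x * yC K y C ∈ J')
    (h2 : d ≤ D → ∀ x ∈ J Finset.univ, x ∈ ⋀[K]^(D - d) V →
      ∃ z ∈ ⋀[K]^D V, ExteriorAlgebra.map j x * yC K y Finset.univ - ExteriorAlgebra.map j z ∈ J') :
    qdim J' (⋀[K]^D V') ≤
      ∑ C ∈ (Finset.univ : Finset (Finset (Fin d))).filter (fun C => C.card ≤ D),
        qdim (J C) (⋀[K]^(D - C.card) V) := by
  classical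
  choose P hP1 hP2 hP3 using fun C : Finset (Fin d) =>
    exists_compl (J C) (⋀[K]^(D - C.card) V)
  have hne : (∅ : Finset (Fin d)) ≠ Finset.univ := by
    intro h
    have : (⟨0, hd⟩ : Fin d) ∈ (∅ : Finset (Fin d)) := by rw [h]; exact Finset.mem_univ _
    simp at this
  have hle : ∀ C : Finset (Fin d), C ≠ Finset.univ → C.card ≤ D →
      (⋀[K]^(D - C.card) V).map (LC j y C) ≤ J' ⊔ ⨆ C ∈ (Finset.univ :
        Finset (Finset (Fin d))).filter (fun C => C.card ≤ D), (P C).map (LC j y C) := by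
    rintro C hC hCD _ ⟨x, hx, rfl⟩
    obtain ⟨p, hp, u, ⟨hu1, hu2⟩, rfl⟩ := Submodule.mem_sup.mp (hP3 C hx)
    rw [map_add]
    apply Submodule.add_mem
    · apply Submodule.mem_sup_right
      exact Submodule.mem_iSup_of_mem C (Submodule.mem_iSup_of_mem (by simpa using hCD)
        ⟨p, hp, rfl⟩)
    · exact Submodule.mem_sup_left (h1 C hC u hu1 hu2)
  have hmain : ⋀[K]^D V' ≤ J' ⊔ ⨆ C ∈ (Finset.univ :
        Finset (Finset (Fin d))).filter (fun C => C.card ≤ D), (P C).map (LC j y C) := by
    refine (span_lemma j y hs D).trans ?_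
    unfold Sp
    apply iSup_le
    intro C
    apply iSup_le
    intro hCD
    simp only [Finset.mem_filter, Finset.mem_univ, true_and] at hCD
    by_cases hC : C = Finset.univ
    · subst hC
      rintro _ ⟨x, hx, rfl⟩
      obtain ⟨p, hp, u, ⟨hu1, hu2⟩, rfl⟩ := Submodule.mem_sup.mp (hP3 _ hx)
      rw [map_add]
      apply Submodule.add_mem
      · apply Submodule.mem_sup_right
        exact Submodule.mem_iSup_of_mem _ (Submodule.mem_iSup_of_mem (by simpa using hCD)
          ⟨p, hp, rfl⟩)
      · rw [Finset.card_univ, Fintype.card_fin] at hCD hu2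
        obtain ⟨z, hz1, hz2⟩ := h2 hCD u hu1 hu2
        have e : LC j y Finset.univ u = (ExteriorAlgebra.map j u * yC K y Finset.univ
          - ExteriorAlgebra.map j z) + ExteriorAlgebra.map j z := by
          rw [LC_apply]; abel
        rw [e]
        apply Submodule.add_mem _ (Submodule.mem_sup_left hz2)
        apply hle ∅ hne (by simp)
        refine ⟨z, by simpa using hz1, ?_⟩
        rw [LC_apply, yC_empty, mul_one]
    · exact hle C hC hCD
  refine (qdim_le_sum _ _ hmain).trans ?_
  apply Finset.sum_le_sum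
  intro C _
  rw [← hP2 C]
  exact Submodule.finrank_map_le _ _

end Pool.Agent.Work.MP_2bf34e_al
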